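import Mathlib
import Pool.Agent.P.MP_a60a76_nt.Fs.Main
import Pool.Agent.P.MP_a60a76_nt.Fs.VarCh
import Pool.Agent.P.MP_a60a76_nt.Fs.Arith
import Pool.Agent.P.MP_a60a76_nt.Fs.Rad

/-! Frey-Mazur for almost all curves, the second curve satisfying a Szpiro-type inequality. -/

namespace Pool.Agent.Results.MP_a60a76_nt.AlmostAll

open WeierstrassCurve Filter Topology
open Pool.Agent.P.MP_a60a76_nt

/-- The points of `E` over the algebraic closure of the rationals. -/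
abbrev Pts (E : WeierstrassCurve ℚ) := (E.baseChange (AlgebraicClosure ℚ)).toAffine.Point

open Classical in
/-- The two curves are `p`-congruent: the `p`-torsion groups are isomorphic Galois modules. -/
def Congruent (p : ℕ) (E1 E2 : WeierstrassCurve ℚ) : Prop :=
  ∃ φ : AddSubgroup.torsionBy (Pts E1) p ≃+ AddSubgroup.torsionBy (Pts E2) p,
    ∀ (σ : AlgebraicClosure ℚ ≃ₐ[ℚ] AlgebraicClosure ℚ) (P Q : AddSubgroup.torsionBy (Pts E1) p),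
      (Q : Pts E1) = Affine.Point.map (W' := E1.toAffine) σ.toAlgHom (P : Pts E1) →
        (φ Q : Pts E2) = Affine.Point.map (W' := E2.toAffine) σ.toAlgHom (φ P : Pts E2)

/-- The curve `y^2 = x^3 + A x + B`. -/
def curve (A B : ℤ) : WeierstrassCurve ℚ := ⟨0, 0, 0, A, B⟩

/-- `E` has good reduction at `q`: some integral model has discriminant prime to `q`. -/
def GoodAt (q : ℕ) (E : WeierstrassCurve ℚ) : Prop :=
  ∃ (W : WeierstrassCurve ℤ) (C : VariableChange ℚ),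
    W.map (Int.castRingHom ℚ) = C • E ∧ ¬ (q : ℤ) ∣ W.Δ

/-- The product of the primes of bad reduction of `E` other than `p`. -/
noncomputable def rad (p : ℕ) (E : WeierstrassCurve ℚ) : ℕ :=
  ∏ᶠ q ∈ {q : ℕ | q.Prime ∧ q ≠ p ∧ ¬ GoodAt q E}, q

/-- The pairs `(A, B)` of naive height at most `X` whose curve has a congruent partner. -/
def Bad (P : ℕ) (α σ X : ℝ) : Set (ℤ × ℤ) :=
  {c | 4 * |(c.1 : ℝ)| ^ 3 ≤ X ∧ 27 * (c.2 : ℝ) ^ 2 ≤ X ∧ 4 * c.1 ^ 3 + 27 * c.2 ^ 2 ≠ 0 ∧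
    ∃ (p : ℕ) (E : WeierstrassCurve ℚ) (_ : E.IsElliptic), p.Prime ∧ P ≤ p ∧
      ((max E.j.num.natAbs E.j.den : ℕ) : ℝ) ≤ X ^ α * (rad p E : ℝ) ^ σ ∧
      (¬ ∃ C : VariableChange ℚ, C • curve c.1 c.2 = E) ∧ Congruent p (curve c.1 c.2) E}

open Classical in
theorem tors_equiv (p : ℕ) {E : WeierstrassCurve ℚ} {a b : ℚ}
    (e : Pts E ≃+ Fs.Pt (a : Fs.Qb) (b : Fs.Qb)) :
    ∃ f : AddSubgroup.torsionBy (Pts E) p ≃+ Fs.Tors p (a : Fs.Qb) (b : Fs.Qb),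
      ∀ P, (f P : Fs.Pt (a : Fs.Qb) (b : Fs.Qb)) = e P := by
  have key : ∀ P : Pts E, P ∈ AddSubgroup.torsionBy (Pts E) p ↔ e P ∈ Fs.Tors p _ _ := by
    intro P
    rw [Fs.mem_tors, ← map_nsmul, EmbeddingLike.map_eq_zero_iff]
    change P ∈ Submodule.torsionBy ℤ (Pts E) (p : ℤ) ↔ _
    rw [Submodule.mem_torsionBy_iff, natCast_zsmul]
  refine ⟨{ toFun := fun P => ⟨e P, (key _).1 P.2⟩
            invFun := fun Q => ⟨e.symm Q, (key _).2 (by simp)⟩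
            left_inv := fun P => by simp
            right_inv := fun Q => by simp
            map_add' := fun P Q => Subtype.ext (by simp) }, fun P => rfl⟩

open Classical in
theorem cong_of_congruent {p : ℕ} {A B : ℤ} {E : WeierstrassCurve ℚ} {a b : ℚ}
    {C : VariableChange ℚ} (hu : C.u = 1) (hC : C • E = Fs.wc a b)
    (h : Congruent p (curve A B) E) : Fs.Cong p A B a b := by
  obtain ⟨φ, hφ⟩ := h
  obtain ⟨e1, he1⟩ := Fs.model_equiv (curve A B) 1 rfl A B (one_smul _ _)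
  obtain ⟨e2, he2⟩ := Fs.model_equiv E C hu a b hC
  obtain ⟨f1, hf1⟩ := tors_equiv p e1
  obtain ⟨f2, hf2⟩ := tors_equiv p e2
  refine ⟨(f1.symm.trans φ).trans f2, fun σ P => ?_⟩
  let σ' : Fs.Qb ≃ₐ[ℚ] Fs.Qb := AlgEquiv.ofRingEquiv (f := σ) (fun q => by simp)
  have hσ : σ'.toRingEquiv.toRingHom = σ.toRingHom := rfl
  obtain ⟨P, rfl⟩ := f1.surjective P
  have h1 : ((f1.symm (Fs.rho p _ _ σ (f1 P)) : AddSubgroup.torsionBy (Pts (curve A B)) p) :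
      Pts (curve A B)) = Affine.Point.map (W' := (curve A B).toAffine) σ'.toAlgHom P := by
    apply e1.injective
    rw [← hf1, he1, AddEquiv.apply_symm_apply, hσ, ← hf1]
    rfl
  apply Subtype.ext
  simp only [AddEquiv.trans_apply, AddEquiv.symm_apply_apply]
  rw [hf2, hφ σ' P _ h1, he2, hσ, ← hf2]
  rfl

theorem rad_bound {p : ℕ} (hp : p.Prime) (h5 : 5 ≤ p) {A B : ℤ} {E : WeierstrassCurve ℚ}
    {a b : ℚ} {C : VariableChange ℚ} (hC : C • E = Fs.wc a b) (hd : Fs.dsc a b ≠ 0)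
    (hc : Fs.Cong p A B a b) {j : ℚ} (hj : j = 6912 * a ^ 3 / Fs.dsc a b)
    (hP : Fs.Par p A B j) :
    1 ≤ rad p E ∧ rad p E ^ p ≤ (6 * Fs.dsc A B).natAbs ^ p * j.den := by
  have key : ∀ q ∈ {q : ℕ | q.Prime ∧ q ≠ p ∧ ¬ GoodAt q E}, q.Prime ∧
      ((q : ℤ) ∣ 6 * Fs.dsc A B ∨ (padicValRat q j < 0 ∧ (p : ℤ) ∣ padicValRat q j)) := by
    rintro q ⟨hq, hqp, hb⟩
    refine ⟨hq, ?_⟩
    by_contra hn
    rw [not_or] at hn
    have hq5 : 5 ≤ q := by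
      by_contra h
      have h2 := hq.two_le
      have h4 : q ≠ 4 := fun h4 => by rw [h4] at hq; exact absurd hq (by norm_num)
      have : q = 2 ∨ q = 3 := by omega
      rcases this with rfl | rfl
      · exact hn.1 (Dvd.dvd.mul_right (by norm_num) _)
      · exact hn.1 (Dvd.dvd.mul_right (by norm_num) _)
    have hqd : ¬ (q : ℤ) ∣ Fs.dsc A B := fun h => hn.1 (h.mul_left _)
    have h0 : 0 ≤ padicValRat q j := by
      by_contra h
      exact hn.2 ⟨not_le.1 h, (Fs.loc_q hp h5 hq hq5 hqp hqd hP).1 (not_le.1 h)⟩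
    obtain ⟨A', B', u, hu, h1, h2, h3⟩ := Fs.good_model hp h5 hq hq5 hqp hqd hd hc (hj ▸ h0)
    obtain ⟨C', hC'⟩ := Fs.iso_of_scale hu h1 h2
    refine hb ⟨Fs.wc A' B', C' * C, ?_, fun h => h3 ?_⟩
    · rw [mul_smul, hC, hC']
      simp [Fs.wc, WeierstrassCurve.map]
    · have e : (Fs.wc A' B').Δ = -2 ^ 4 * Fs.dsc A' B' := by
        simp only [Fs.wc, Fs.dsc, Δ, b₂, b₄, b₆, b₈]
        ring
      have hq' : Prime (q : ℤ) := Nat.prime_iff_prime_int.1 hq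
      rw [e, neg_mul, dvd_neg] at h
      refine (hq'.dvd_or_dvd h).resolve_left fun h4 => ?_
      have := Int.le_of_dvd two_pos (hq'.dvd_of_dvd_pow h4)
      omega
  have hd6 : 6 * Fs.dsc A B ≠ 0 := mul_ne_zero (by norm_num) hP.1
  have hfin : {q : ℕ | q.Prime ∧ q ≠ p ∧ ¬ GoodAt q E}.Finite := by
    refine ((6 * Fs.dsc A B).natAbs * j.den).primeFactors.finite_toSet.subset fun q hq => ?_
    obtain ⟨h1, h2⟩ := key q hq
    refine Nat.mem_primeFactors.2 ⟨h1, ?_, mul_ne_zero (Int.natAbs_ne_zero.2 hd6) j.den_nz⟩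
    rcases h2 with h2 | h2
    · exact (Int.natCast_dvd.1 h2).mul_right _
    · refine Dvd.dvd.mul_left ?_ _
      by_contra h3
      have h4 := h2.1
      rw [padicValRat_def, padicValNat.eq_zero_of_not_dvd h3] at h4
      omega
  rw [rad, finprod_mem_eq_finite_toFinset_prod _ hfin]
  exact ⟨Finset.one_le_prod' fun q hq => (hfin.mem_toFinset.1 hq).1.one_le,
    Fs.rad_le _ hd6 fun q hq => key q (hfin.mem_toFinset.1 hq)⟩

theorem bad_subset {P : ℕ} (hP : 11 ≤ P) {α σ A0 X : ℝ}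
    (hX : ∀ p R H D : ℕ, P ≤ p → 1 ≤ H → 1 ≤ R → (D : ℝ) ≤ 12 * X → R ^ p ≤ D ^ p * H →
      (H : ℝ) ≤ X ^ α * (R : ℝ) ^ σ → (H : ℝ) ≤ X ^ A0) :
    Bad P α σ X ⊆ {c ∈ Fs.box X | ¬ Fs.Good0 c.1 c.2} ∪ {c ∈ Fs.box X | IsSquare (-3 * c.1)} ∪
      {c ∈ Fs.box X | ¬ IsSquare (-3 * c.1) ∧ ∃ (p : ℕ) (j : ℚ), p.Prime ∧ P ≤ p ∧
        (Fs.hgt j : ℝ) ≤ X ^ A0 ∧ Fs.Par p c.1 c.2 j} := by
  rintro c ⟨h1, h2, -, p, E, hE, hp, hPp, hH, hn, hc⟩
  have hb : c ∈ Fs.box X := ⟨h1, h2⟩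
  by_cases hG : Fs.Good0 c.1 c.2
  swap
  · exact Or.inl (Or.inl ⟨hb, hG⟩)
  by_cases hs : IsSquare (-3 * c.1)
  · exact Or.inl (Or.inr ⟨hb, hs⟩)
  obtain ⟨a, b, C, hu, hC, hd, hj⟩ := Fs.short_model E
  have hc' := cong_of_congruent hu hC hc
  have hpar : Fs.Par p c.1 c.2 E.j := by
    rw [hj]
    refine Fs.par_of_cong hp (by omega) hG hd hc' ?_
    rintro ⟨u, hu0, ha, hb'⟩
    obtain ⟨C', hC'⟩ := Fs.iso_of_scale hu0 ha hb'
    refine hn ⟨C⁻¹ * C', ?_⟩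
    rw [mul_smul]
    change C⁻¹ • C' • Fs.wc (c.1 : ℚ) (c.2 : ℚ) = E
    rw [hC', ← hC, inv_smul_smul]
  obtain ⟨k1, k2⟩ := rad_bound hp (by omega) hC hd hc' hj hpar
  refine Or.inr ⟨hb, hs, p, E.j, hp, hPp, hX p _ _ _ hPp (le_max_of_le_right E.j.den_pos) k1 ?_
    (k2.trans (Nat.mul_le_mul_left _ (le_max_right _ _))) hH, hpar⟩
  rw [Nat.cast_natAbs, Fs.dsc]
  push_cast
  rw [abs_mul, abs_of_pos (by norm_num : (0 : ℝ) < 6)]
  have h3 := abs_add_le (4 * (c.1 : ℝ) ^ 3) (27 * (c.2 : ℝ) ^ 2)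
  rw [abs_mul, abs_pow, abs_of_pos (by norm_num : (0 : ℝ) < 4),
    abs_of_nonneg (by positivity : (0 : ℝ) ≤ 27 * (c.2 : ℝ) ^ 2)] at h3
  linarith

theorem result (P : ℕ) (α σ : ℝ) (hP : 11 ≤ P) (h0 : 0 ≤ σ) (h1 : σ < P)
    (hA : 144 * (α + σ) < (P - σ) * ((P : ℝ) ^ 2 - 1)) :
    Tendsto (fun X : ℝ => (Nat.card (Bad P α σ X) : ℝ) / X ^ (5 / 6 : ℝ)) atTop (𝓝 0) := by
  have hP' : (0 : ℝ) < P := by exact_mod_cast (by omega : 0 < P)
  obtain ⟨A0, k1, k2⟩ : ∃ A0, (α + σ) * P / (P - σ) < A0 ∧ A0 < P * ((P : ℝ) ^ 2 - 1) / 144 := by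
    refine exists_between ?_
    rw [div_lt_div_iff₀ (sub_pos.2 h1) (by norm_num)]
    nlinarith
  rw [div_lt_iff₀ (sub_pos.2 h1)] at k1
  rw [Metric.tendsto_nhds]
  intro η hη
  have h4 : 0 < η / 4 := by positivity
  filter_upwards [Fs.good0_density _ h4, Fs.square_small _ h4,
    Fs.main_short P A0 hP (by linarith) _ h4, eventually_gt_atTop (0 : ℝ),
    Fs.hgt_le (by omega) h0 h1 k1] with X h1 h2 h3 hX hX2
  have hX' : 0 < X ^ (5 / 6 : ℝ) := Real.rpow_pos_of_pos hX _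
  rw [Real.dist_eq, sub_zero, abs_of_nonneg (by positivity), div_lt_iff₀ hX']
  have f1 := (Fs.box_finite X).sep (fun c => ¬ Fs.Good0 c.1 c.2)
  have f2 := (Fs.box_finite X).sep (fun c => IsSquare (-3 * c.1))
  have f3 := (Fs.box_finite X).sep (fun c => ¬ IsSquare (-3 * c.1) ∧ ∃ (p : ℕ) (j : ℚ),
    p.Prime ∧ P ≤ p ∧ (Fs.hgt j : ℝ) ≤ X ^ A0 ∧ Fs.Par p c.1 c.2 j)
  have h5 := Set.ncard_le_ncard (bad_subset hP hX2) ((f1.union f2).union f3)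
  have h6 := h5.trans ((Set.ncard_union_le _ _).trans
    (Nat.add_le_add_right (Set.ncard_union_le _ _) _))
  rw [Nat.card_coe_set_eq] at h1 h2 h3 ⊢
  have h7 : ((Bad P α σ X).ncard : ℝ) ≤ _ := Nat.cast_le.2 h6
  push_cast at h7
  nlinarith

end Pool.Agent.Results.MP_a60a76_nt.AlmostAll
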