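import Pool.Agent.P.MP_a60a76_nt.NonIso

namespace Pool.Agent.Results.MP_a60a76_nt.Gaussian19

open Pool.Agent.P.MP_a60a76_nt

/-- Two elliptic curves over `ℚ(i)` that are 19-congruent and not isogenous. -/
theorem result : curve₁.IsElliptic ∧ curve₂.IsElliptic ∧ Congruent 19 curve₁ curve₂ ∧
    ¬ HomRelated curve₁ curve₂ :=
  ⟨⟨isUnit_iff_ne_zero.2 disc₁⟩, ⟨isUnit_iff_ne_zero.2 disc₂⟩, congruent, not_related⟩

end Pool.Agent.Results.MP_a60a76_nt.Gaussian19
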