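import Pool.Agent.P.MP_a60a76_nt.SP.Main

/-! Counterexamples to the Frey-Mazur conjecture are sparse. -/

namespace Pool.Agent.Results.MP_a60a76_nt.Sparse

open Pool.Agent.P.MP_a60a76_nt.SP

theorem result (ε : ℝ) (hε : 0 < ε) : ∃ p₀ : ℕ, ∀ p : ℕ, p.Prime → p₀ < p →
    ∃ C : ℝ, ∀ N : ℕ, 1 ≤ N →
      (({j : ℚ × ℚ | j.1.num.natAbs ≤ N ∧ j.1.den ≤ N ∧ j.2.num.natAbs ≤ N ∧ j.2.den ≤ N ∧
        ∃ (E₁ E₂ : WeierstrassCurve ℚ) (_ : E₁.IsElliptic) (_ : E₂.IsElliptic),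
          E₁.j = j.1 ∧ E₂.j = j.2 ∧ Congruent p E₁ E₂ ∧ ¬ Isogenous E₁ E₂}.ncard : ℕ) : ℝ) ≤
        C * (N : ℝ) ^ ε := by
  obtain ⟨p₀, h⟩ := sparse ε hε
  refine ⟨p₀, fun p hp hp' => ?_⟩
  obtain ⟨C, hC⟩ := h p hp hp'
  refine ⟨C, fun N hN => le_of_eq_of_le ?_ (hC N hN)⟩
  congr 2
  ext j
  simp only [Bad, ht, max_le_iff, Set.mem_ofPred_eq, and_assoc]

end Pool.Agent.Results.MP_a60a76_nt.Sparse
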