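import Pool.Agent.P.MP_a60a76_nt.Sz.Fin

/-! A counterexample to the Frey-Mazur conjecture has few primes of bad reduction compared with
its height. -/

namespace Pool.Agent.Results.MP_a60a76_nt.SzpiroBound

open Pool.Agent.P.MP_a60a76_nt.SP

theorem result : ∃ C : ℝ, ∀ p : ℕ, p.Prime → ∀ (E₁ E₂ : WeierstrassCurve ℚ)
    [E₁.IsElliptic] [E₂.IsElliptic], Congruent p E₁ E₂ → ¬ Isogenous E₁ E₂ →
    ∀ S : Finset ℕ, (∀ l ∈ S, l.Prime ∧ ∃ j : ℚ, (j = E₁.j ∨ j = E₂.j) ∧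
      (padicValRat l j < 0 ∨ ¬ 3 ∣ padicValRat l j ∨ ¬ 2 ∣ padicValRat l (j - 1728))) →
    (p : ℝ) ^ (1 / 3 : ℝ) * (1 + ∑ l ∈ S, Real.log l) ≤ C * (1 + Real.log
      (max (max E₁.j.num.natAbs E₁.j.den) (max E₂.j.num.natAbs E₂.j.den) : ℕ)) :=
  Pool.Agent.P.MP_a60a76_nt.Sz.szpiro_bound

end Pool.Agent.Results.MP_a60a76_nt.SzpiroBound
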